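import Pool.Agent.ABCP.Stmts

set_option autoImplicit false

/-!
Row ANN of squad ABCP: the cap has no free summand (adapted from helper85's file for `p = 3`).
-/

namespace Pool.Agent.ABCP.H69A

open Matrix
open Pool.Agent.ABC3 (St sdeg xc mu mu_def xc_comm xc_sq mu_comm mu_deg HasDeg HomV kr)

section gen
variable {p : ℕ} {K Q B : Type} [Field K] [AddCommGroup Q] [Module K Q] [Fintype B] [DecidableEq B]

theorem homV_act (S : Sys p K Q B) (q : Q) {d : ℤ} {v : B → K} (hv : HomV S.deg d v) :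
    HomV S.deg (d + 1) ((S.act q).mulVec v) := by
  intro s hs
  rw [Matrix.mulVec, dotProduct] at hs
  obtain ⟨s', _, h⟩ := Finset.exists_ne_zero_of_sum_ne_zero hs
  have h1 : S.act q s s' ≠ 0 := fun h' => h (by simp [h'])
  have h2 : v s' ≠ 0 := fun h' => h (by simp [h'])
  rw [S.hdeg q s s' h1, hv s' h2]

theorem homV_act_pow (S : Sys p K Q B) (q : Q) (k : ℕ) {d : ℤ} {v : B → K}
    (hv : HomV S.deg d v) : HomV S.deg (d + k) ((S.act q ^ k).mulVec v) := by
  induction k with
  | zero => simpa using hv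
  | succ k ih =>
    rw [pow_succ', ← Matrix.mulVec_mulVec]
    have h := homV_act S q ih
    have e : d + (k : ℤ) + 1 = d + ((k + 1 : ℕ) : ℤ) := by push_cast; ring
    rwa [e] at h

/-- product of the `(p-1)`-st powers of a list -/
def PiL (S : Sys p K Q B) (L : List Q) : Matrix B B K :=
  (L.map (fun q => S.act q ^ (p - 1))).prod

/-- iterated relative trace -/
def iTr (S : Sys p K Q B) (g0 : Matrix B B K) (L : List Q) : Matrix B B K :=
  L.foldr (fun q g => Tr S q g) g0

theorem iTr_cons (S : Sys p K Q B) (g0 : Matrix B B K) (q : Q) (L : List Q) :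
    iTr S g0 (q :: L) = Tr S q (iTr S g0 L) := rfl

theorem PiL_cons (S : Sys p K Q B) (q : Q) (L : List Q) :
    PiL S (q :: L) = S.act q ^ (p - 1) * PiL S L := by
  simp [PiL]

theorem act_PiL (S : Sys p K Q B) (q : Q) (L : List Q) :
    S.act q * PiL S L = PiL S L * S.act q := by
  have : Commute (S.act q) (PiL S L) := by
    apply Commute.list_prod_right
    intro x hx
    rw [List.mem_map] at hx
    obtain ⟨y, _, rfl⟩ := hx
    have h : Commute (S.act q) (S.act y) := S.comm q y
    exact h.pow_right _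
  exact this

theorem Tr_mulVec (S : Sys p K Q B) (q : Q) (g : Matrix B B K) (x : B → K) :
    (Tr S q g).mulVec x = ∑ i ∈ Finset.range p,
      (S.act q ^ i).mulVec (g.mulVec ((S.act q ^ (p - 1 - i)).mulVec x)) := by
  unfold Tr
  rw [Matrix.sum_mulVec]
  refine Finset.sum_congr rfl fun i _ => ?_
  rw [Matrix.mulVec_mulVec, Matrix.mulVec_mulVec]

theorem homV_PiL (S : Sys p K Q B) (L : List Q) {d : ℤ} {v : B → K} (hv : HomV S.deg d v) :
    HomV S.deg (d + ((p - 1 : ℕ) : ℤ) * (L.length : ℤ)) ((PiL S L).mulVec v) := by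
  induction L with
  | nil => simpa [PiL] using hv
  | cons q L ih =>
    rw [PiL_cons, ← Matrix.mulVec_mulVec]
    have h := homV_act_pow S q (p - 1) ih
    have e : d + ((p - 1 : ℕ) : ℤ) * (L.length : ℤ) + ((p - 1 : ℕ) : ℤ) =
        d + ((p - 1 : ℕ) : ℤ) * ((q :: L).length : ℤ) := by
      rw [List.length_cons]; push_cast; ring
    rwa [e] at h

theorem iTr_low (hp : 0 < p) (S : Sys p K Q B) (g0 : Matrix B B K) (E : ℤ)
    (h0 : ∀ e x, e < E → HomV S.deg e x → g0.mulVec x = 0) (L : List Q) :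
    (∀ e x, e < E - ((p - 1 : ℕ) : ℤ) * (L.length : ℤ) → HomV S.deg e x →
      (iTr S g0 L).mulVec x = 0) ∧
    (∀ x, HomV S.deg (E - ((p - 1 : ℕ) : ℤ) * (L.length : ℤ)) x →
      (iTr S g0 L).mulVec x = g0.mulVec ((PiL S L).mulVec x)) := by
  induction L with
  | nil =>
    refine ⟨fun e x he hx => h0 e x (by simpa using he) hx, fun x _ => ?_⟩
    simp [iTr, PiL]
  | cons q L ih =>
    obtain ⟨ih1, ih2⟩ := ih
    have hlen : ((p - 1 : ℕ) : ℤ) * ((q :: L).length : ℤ) =
        ((p - 1 : ℕ) : ℤ) * (L.length : ℤ) + ((p - 1 : ℕ) : ℤ) := by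
      rw [List.length_cons]; push_cast; ring
    rw [hlen]
    constructor
    · intro e x he hx
      rw [iTr_cons, Tr_mulVec]
      refine Finset.sum_eq_zero fun i hi => ?_
      rw [ih1 (e + ((p - 1 - i : ℕ) : ℤ)) _ ?_ (homV_act_pow S q _ hx), Matrix.mulVec_zero]
      have h1 : ((p - 1 - i : ℕ) : ℤ) ≤ ((p - 1 : ℕ) : ℤ) := by
        exact_mod_cast Nat.sub_le _ _
      linarith
    · intro x hx
      rw [iTr_cons, Tr_mulVec]
      rw [Finset.sum_eq_single_of_mem 0 (Finset.mem_range.2 hp)]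
      · rw [pow_zero, Matrix.one_mulVec, Nat.sub_zero]
        have h1 := homV_act_pow S q (p - 1) hx
        have e : E - (((p - 1 : ℕ) : ℤ) * (L.length : ℤ) + ((p - 1 : ℕ) : ℤ)) +
            ((p - 1 : ℕ) : ℤ) = E - ((p - 1 : ℕ) : ℤ) * (L.length : ℤ) := by ring
        rw [e] at h1
        rw [ih2 _ h1, PiL_cons, Matrix.mulVec_mulVec (M := PiL S L)]
        have hc : PiL S L * S.act q ^ (p - 1) = S.act q ^ (p - 1) * PiL S L := by
          have h : Commute (S.act q) (PiL S L) := act_PiL S q L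
          exact (h.pow_left (p - 1)).symm
        rw [hc]
      · intro i hi hi0
        rw [ih1 _ _ ?_ (homV_act_pow S q _ hx), Matrix.mulVec_zero]
        have h1 : ((p - 1 - i : ℕ) : ℤ) < ((p - 1 : ℕ) : ℤ) := by
          have := Finset.mem_range.1 hi
          have : p - 1 - i < p - 1 := by omega
          exact_mod_cast this
        linarith

theorem act_Tr (S : Sys p K Q B) (q : Q) (g : Matrix B B K) :
    S.act q * Tr S q g = Tr S q g * S.act q := by
  have h := S.pw q
  obtain ⟨F, hF⟩ : ∃ F : ℕ → Matrix B B K, F = fun j => S.act q ^ j * g * S.act q ^ (p - j) :=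
    ⟨_, rfl⟩
  have e1 : S.act q * Tr S q g = ∑ i ∈ Finset.range p, F (i + 1) := by
    unfold Tr
    rw [Finset.mul_sum]
    refine Finset.sum_congr rfl fun i _ => ?_
    rw [hF]
    show S.act q * (S.act q ^ i * g * S.act q ^ (p - 1 - i)) =
      S.act q ^ (i + 1) * g * S.act q ^ (p - (i + 1))
    rw [pow_succ', Nat.sub_sub, add_comm 1 i]
    simp only [Matrix.mul_assoc]
  have e2 : Tr S q g * S.act q = ∑ i ∈ Finset.range p, F i := by
    unfold Tr
    rw [Finset.sum_mul]
    refine Finset.sum_congr rfl fun i hi => ?_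
    rw [hF]
    show S.act q ^ i * g * S.act q ^ (p - 1 - i) * S.act q = S.act q ^ i * g * S.act q ^ (p - i)
    have h1 : p - i = p - 1 - i + 1 := by
      have := Finset.mem_range.1 hi
      omega
    rw [h1, pow_succ, Matrix.mul_assoc (S.act q ^ i * g)]
  have h0 : F 0 = 0 := by
    rw [hF]
    show S.act q ^ 0 * g * S.act q ^ (p - 0) = 0
    rw [Nat.sub_zero, h, Matrix.mul_zero]
  have hp : F p = 0 := by
    rw [hF]
    show S.act q ^ p * g * S.act q ^ (p - p) = 0
    rw [h, Matrix.zero_mul, Matrix.zero_mul]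
  have h2 := Finset.sum_range_succ F p
  have h3 := Finset.sum_range_succ' F p
  rw [e1, e2]
  rw [h3, h0, hp, add_zero, add_zero] at h2
  exact h2

theorem act_Tr' (S : Sys p K Q B) (x q : Q) (g : Matrix B B K) (h : S.act x * g = g * S.act x) :
    S.act x * Tr S q g = Tr S q g * S.act x := by
  have h1 : Commute (S.act x) (S.act q) := S.comm x q
  have h2 : Commute (S.act x) g := h
  have h3 : Commute (S.act x) (Tr S q g) := by
    unfold Tr
    apply Commute.sum_right
    intro i _
    exact ((h1.pow_right _).mul_right h2).mul_right (h1.pow_right _)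
  exact h3

theorem act_iTr (S : Sys p K Q B) (g0 : Matrix B B K) (L : List Q) :
    ∀ q ∈ L, S.act q * iTr S g0 L = iTr S g0 L * S.act q := by
  induction L with
  | nil => intro q hq; simp at hq
  | cons x L ih =>
    intro q hq
    rw [iTr_cons]
    rcases List.mem_cons.1 hq with rfl | hq
    · exact act_Tr S q _
    · exact act_Tr' S q x _ (ih q hq)

theorem deg_iTr (S : Sys p K Q B)
    (trd : ∀ (k : ℤ) q g, HasDeg S.deg k g → HasDeg S.deg (k + ((p : ℤ) - 1)) (Tr S q g))
    (g0 : Matrix B B K) (k : ℤ) (h0 : HasDeg S.deg k g0) (L : List Q) :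
    HasDeg S.deg (k + ((p : ℤ) - 1) * (L.length : ℤ)) (iTr S g0 L) := by
  induction L with
  | nil => simpa [iTr] using h0
  | cons x L ih =>
    rw [iTr_cons]
    have h := trd _ x _ ih
    have e : k + ((p : ℤ) - 1) * (L.length : ℤ) + ((p : ℤ) - 1) =
        k + ((p : ℤ) - 1) * ((x :: L).length : ℤ) := by
      rw [List.length_cons]; push_cast; ring
    rwa [e] at h

theorem com_of_basis (S : Sys p K Q B) {κ : Type} [Fintype κ] {P : Submodule K Q}
    (b : Module.Basis κ K P) (f : Matrix B B K)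
    (h : ∀ i, S.act (b i : Q) * f = f * S.act (b i : Q)) : Com S P f := by
  intro x hx
  have h1 : x = ∑ i, b.repr ⟨x, hx⟩ i • (b i : Q) := by
    have h2 := congrArg (fun y : P => (y : Q)) (b.sum_repr ⟨x, hx⟩)
    simp only [Submodule.coe_sum, Submodule.coe_smul] at h2
    exact h2.symm
  rw [h1, map_sum, Finset.sum_mul, Finset.mul_sum]
  refine Finset.sum_congr rfl fun i _ => ?_
  rw [map_smul, Matrix.smul_mul, Matrix.mul_smul, h i]

theorem end0_sub {S : Sys p K Q B} {M N : Matrix B B K} (hM : End0 S M) (hN : End0 S N) :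
    End0 S (M - N) := by
  refine ⟨fun s s' hs => ?_, fun x hx => ?_⟩
  · by_cases h1 : M s s' = 0
    · apply hN.1 s s'
      intro h2
      apply hs
      rw [Matrix.sub_apply, h1, h2, sub_zero]
    · exact hM.1 s s' h1
  · rw [Matrix.mul_sub, Matrix.sub_mul, hM.2 x hx, hN.2 x hx]

end gen

/-- row ANN -/
theorem ann (trc : TRCStmt) (idl : IDLStmt) (sqr : SQRStmt) : ANNStmt := by
  intro p _ K Q B _ _ _ _ _ _ _ S ι _ _ ev hev hn e he d v hv hve
  have hpp : p.Prime := Fact.out
  have hp0 : 0 < p := hpp.pos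
  have hpc : ((p - 1 : ℕ) : ℤ) = (p : ℤ) - 1 := by
    rw [Nat.cast_sub hpp.one_lt.le, Nat.cast_one]
  obtain ⟨hee, hed, hetr, hecap⟩ := he
  obtain ⟨-, T2, -, -, -, -⟩ := trc p K Q B S
  obtain ⟨-, I2, I3, I4, I5⟩ := idl p K Q B S ι ev
  -- a basis adapted to a hyperplane
  obtain ⟨c₀⟩ : Nonempty ι := inferInstance
  obtain ⟨y, hy⟩ : ∃ y, ev c₀ y = 1 := by
    have h1 : ∃ z, ev c₀ z ≠ 0 := by
      by_contra hcon
      push Not at hcon
      exact hev c₀ (LinearMap.ext hcon)
    obtain ⟨z, hz⟩ := h1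
    exact ⟨(ev c₀ z)⁻¹ • z, by rw [map_smul, smul_eq_mul, inv_mul_cancel₀ hz]⟩
  obtain ⟨m, hm⟩ : ∃ m, m = Module.finrank K (LinearMap.ker (ev c₀)) := ⟨_, rfl⟩
  let bH : Module.Basis (Fin m) K (LinearMap.ker (ev c₀)) :=
    Module.finBasisOfFinrankEq K _ hm.symm
  let bT : Module.Basis (Fin (m + 1)) K (⊤ : Submodule K Q) :=
    Module.Basis.mkFinConsOfLE y Submodule.mem_top bH le_top
      (by
        intro c x hx hc
        have h1 := congrArg (ev c₀) hc
        rw [map_add, map_smul, hy, LinearMap.mem_ker.1 hx, map_zero, add_zero, smul_eq_mul,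
          mul_one] at h1
        exact h1)
      (by
        intro z _
        refine ⟨- ev c₀ z, ?_⟩
        rw [LinearMap.mem_ker, map_add, map_smul, hy, smul_eq_mul, mul_one, add_neg_cancel])
  have hbT : ∀ i, (bT i : Q) = (Fin.cons y (fun j => (bH j : Q)) : Fin (m + 1) → Q) i := by
    intro i
    have h1 : (bT : Fin (m + 1) → (⊤ : Submodule K Q)) =
        Fin.cons ⟨y, Submodule.mem_top⟩ (Submodule.inclusion le_top ∘ bH) :=
      Module.Basis.coe_mkFinConsOfLE _ _ _ _ _ _
    rw [h1]
    refine Fin.cases ?_ (fun j => ?_) i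
    · rfl
    · rfl
  let L' : List Q := List.ofFn (fun j => (bH j : Q))
  let L : List Q := y :: L'
  have hL'len : L'.length = m := by simp [L']
  have hLlen : L.length = m + 1 := by simp [L, hL'len]
  refine sqr p K Q B S ⊤ (m + 1) bT v ?_
  by_contra hne
  have hPi : (List.ofFn (fun i => S.act (bT i : Q) ^ (p - 1))).prod = PiL S L := by
    have h1 : (fun i => S.act (bT i : Q) ^ (p - 1)) = fun i =>
        S.act ((Fin.cons y (fun j => (bH j : Q)) : Fin (m + 1) → Q) i) ^ (p - 1) := by
      funext i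
      rw [hbT i]
    rw [h1, List.ofFn_succ, List.prod_cons]
    show _ = PiL S (y :: L')
    rw [PiL_cons]
    unfold PiL
    simp only [L', List.map_ofFn, Fin.cons_zero, Fin.cons_succ]
    rfl
  rw [hPi] at hne
  obtain ⟨s0, hs0⟩ : ∃ s0, ((PiL S L).mulVec v) s0 ≠ 0 := by
    by_contra hcon
    push Not at hcon
    exact hne (funext hcon)
  have hdeg0 : S.deg s0 = d + ((p : ℤ) - 1) * ((m : ℤ) + 1) := by
    have h := homV_PiL S L hv s0 hs0
    rw [hLlen, hpc] at h
    rw [h]
    push_cast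
    ring
  set c := ((PiL S L).mulVec v) s0 with hc
  let g0 : Matrix B B K := fun s s' => if s' = s0 then c⁻¹ * v s else 0
  have hg0v : ∀ x : B → K, g0.mulVec x = (c⁻¹ * x s0) • v := by
    intro x
    funext s
    show ∑ s', g0 s s' * x s' = _
    rw [Finset.sum_eq_single s0]
    · simp [g0]; ring
    · intro s' _ hs'
      simp [g0, hs']
    · intro h; exact absurd (Finset.mem_univ _) h
  have hg0d : HasDeg S.deg (-(((p : ℤ) - 1) * ((m : ℤ) + 1))) g0 := by
    intro s s' hs
    have h1 : s' = s0 := by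
      by_contra h
      exact hs (by simp [g0, h])
    have h2 : v s ≠ 0 := by
      intro h
      exact hs (by simp [g0, h])
    rw [h1, hdeg0, hv s h2]
    ring
  have h0 : ∀ e x, e < d + ((p : ℤ) - 1) * ((m : ℤ) + 1) → HomV S.deg e x →
      g0.mulVec x = 0 := by
    intro e x he hx
    rw [hg0v]
    have : x s0 = 0 := by
      by_contra h
      have := hx s0 h
      rw [hdeg0] at this
      linarith
    simp [this]
  let f := iTr S g0 L
  have hfv : f.mulVec v = v := by
    have h := (iTr_low hp0 S g0 (d + ((p : ℤ) - 1) * ((m : ℤ) + 1)) h0 L).2 v (by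
      rw [hLlen, hpc]
      have : d + ((p : ℤ) - 1) * ((m : ℤ) + 1) - ((p : ℤ) - 1) * (((m + 1 : ℕ) : ℤ)) = d := by
        push_cast
        ring
      rwa [this])
    show (iTr S g0 L).mulVec v = v
    rw [h, hg0v, ← hc, inv_mul_cancel₀ hs0, one_smul]
  have hftr : IsTr S ev f := by
    show IsTr S ev (Tr S y (iTr S g0 L'))
    refine I5 c₀ y (iTr S g0 L') ?_ ?_ hy
    · have h := deg_iTr S T2 g0 _ hg0d L'
      rw [hL'len] at h
      have : -(((p : ℤ) - 1) * ((m : ℤ) + 1)) + ((p : ℤ) - 1) * (m : ℤ) = -((p : ℤ) - 1) := by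
        ring
      rwa [this] at h
    · refine com_of_basis S bH _ fun i => ?_
      exact act_iTr S g0 L' (bH i : Q) (by simp [L'])
  -- the operator f'
  have hfetr : IsTr S ev (f * e) := (I3 f e hftr hed).2
  have hefetr : IsTr S ev (e * (f * e)) := (I3 (f * e) e hfetr hed).1
  have hefe : End0 S (e * (f * e)) := I4 hev _ hefetr
  let f' := e - e * (f * e)
  have hf'0 : End0 S f' := end0_sub hed hefe
  have hf'tr : IsTr S ev (1 - f') := by
    have h1 : 1 - f' = (1 - e) + e * (f * e) := by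
      show 1 - (e - e * (f * e)) = _
      abel
    rw [h1]
    exact I2 _ _ hetr hefetr
  obtain ⟨α, β, -, -, hab⟩ := hecap f' hf'0 hf'tr
  have hf'e : f' * e = f' := by
    show (e - e * (f * e)) * e = e - e * (f * e)
    rw [Matrix.sub_mul, hee, Matrix.mul_assoc e, Matrix.mul_assoc f, hee]
  have hf'v : f'.mulVec v = 0 := by
    show (e - e * (f * e)).mulVec v = 0
    rw [Matrix.sub_mulVec, ← Matrix.mulVec_mulVec, ← Matrix.mulVec_mulVec, hve, hfv, hve, sub_self]
  -- kernels
  have hker : LinearMap.ker e.mulVecLin ≤ LinearMap.ker f'.mulVecLin := by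
    intro x hx
    rw [LinearMap.mem_ker, Matrix.mulVecLin_apply] at hx ⊢
    rw [← hf'e, ← Matrix.mulVec_mulVec, hx, Matrix.mulVec_zero]
  have hrank : Module.finrank K (LinearMap.range e.mulVecLin) ≤
      Module.finrank K (LinearMap.range f'.mulVecLin) := by
    have h1 : e.rank ≤ f'.rank := by
      calc e.rank = (α * f' * β).rank := by rw [hab]
        _ ≤ (α * f').rank := Matrix.rank_mul_le_left _ _
        _ ≤ f'.rank := Matrix.rank_mul_le_right _ _
    exact h1
  have e1 := LinearMap.finrank_range_add_finrank_ker e.mulVecLin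
  have e2 := LinearMap.finrank_range_add_finrank_ker f'.mulVecLin
  have hkk : LinearMap.ker e.mulVecLin = LinearMap.ker f'.mulVecLin := by
    apply Submodule.eq_of_le_of_finrank_le hker
    omega
  have hv0 : v = 0 := by
    have : v ∈ LinearMap.ker e.mulVecLin := by
      rw [hkk, LinearMap.mem_ker, Matrix.mulVecLin_apply]
      exact hf'v
    rw [LinearMap.mem_ker, Matrix.mulVecLin_apply, hve] at this
    exact this
  apply hne
  rw [hv0, Matrix.mulVec_zero]

end Pool.Agent.ABCP.H69A
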